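import Mathlib

/-!
# Kronecker - Weyl

Time averages along a line with rationally independent frequencies converge to the integral over
the torus, uniformly for compact families of functions; the measure form with levels.
-/

set_option autoImplicit false

namespace Pool.Agent.Helper6.ZM

open MeasureTheory Filter Topology UnitAddTorus

/-- the uniform probability on the torus -/
noncomputable def mu (d : Type) [Fintype d] : Measure (UnitAddTorus d) :=
  Measure.pi fun _ => AddCircle.haarAddCircle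

variable {d : Type} [Fintype d]

instance : IsProbabilityMeasure (mu d) := by
  unfold mu
  infer_instance

/-- the line in the torus with the frequencies `w` -/
noncomputable def pt (w : d → ℝ) (t : ℝ) : UnitAddTorus d := fun i => ((t * w i : ℝ) : UnitAddCircle)

omit [Fintype d] in
theorem pt_cont (w : d → ℝ) : Continuous (pt w) := by
  unfold pt
  refine continuous_pi fun i => ?_
  exact (AddCircle.continuous_mk' 1).comp (continuous_id.mul continuous_const)

/-- the time average -/
noncomputable def avg (w : d → ℝ) (T : ℝ) (F : C(UnitAddTorus d, ℂ)) : ℂ :=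
  (T : ℂ)⁻¹ * ∫ t in T..(2 * T), F (pt w t)

theorem mF_pt (w : d → ℝ) (n : d → ℤ) (t : ℝ) :
    mFourier n (pt w t) =
      Complex.exp ((Complex.I * ((2 * Real.pi * ∑ i, n i * w i : ℝ) : ℂ)) * t) := by
  simp only [mFourier, ContinuousMap.coe_mk, pt, fourier_coe_apply]
  rw [← Complex.exp_sum]
  congr 1
  push_cast
  rw [Finset.mul_sum, Finset.mul_sum, Finset.sum_mul]
  refine Finset.sum_congr rfl fun i _ => ?_
  ring

theorem int_mF (n : d → ℤ) (hn : n ≠ 0) : ∫ x, mFourier n x ∂(mu d) = 0 := by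
  obtain ⟨i, hi⟩ : ∃ i, n i ≠ 0 := by
    by_contra h
    push Not at h
    exact hn (funext h)
  have h1 : ∫ x, mFourier n x ∂(mu d) = ∏ j, ∫ x : UnitAddCircle, fourier (n j) x ∂AddCircle.haarAddCircle := by
    simp only [mFourier, ContinuousMap.coe_mk, mu]
    exact integral_fintype_prod_eq_prod (𝕜 := ℂ) (fun j (x : UnitAddCircle) => fourier (n j) x)
  rw [h1]
  refine Finset.prod_eq_zero (Finset.mem_univ i) ?_
  exact integral_eq_zero_of_add_right_eq_neg (μ := AddCircle.haarAddCircle)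
    (fourier_add_half_inv_index hi one_pos)

theorem int_mF0 : ∫ x, mFourier (0 : d → ℤ) x ∂(mu d) = 1 := by
  rw [mFourier_zero]
  simp

theorem avg_mF (w : d → ℝ) (hw : ∀ n : d → ℤ, n ≠ 0 → ∑ i, n i * w i ≠ 0) (n : d → ℤ) :
    Tendsto (fun T : ℝ => avg w T (mFourier n)) atTop (𝓝 (∫ x, mFourier n x ∂(mu d))) := by
  by_cases hn : n = 0
  · subst hn
    rw [int_mF0]
    refine tendsto_const_nhds.congr' ?_
    filter_upwards [eventually_gt_atTop 0] with T hT
    unfold avg
    rw [mFourier_zero]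
    simp only [ContinuousMap.one_apply, intervalIntegral.integral_const, Complex.real_smul, mul_one]
    have : (T : ℂ) ≠ 0 := by exact_mod_cast hT.ne'
    push_cast
    field_simp
    ring
  · rw [int_mF n hn]
    set c : ℝ := 2 * Real.pi * ∑ i, n i * w i with hc
    have c0 : c ≠ 0 := mul_ne_zero (by positivity) (hw n hn)
    have cc : Complex.I * (c : ℂ) ≠ 0 := mul_ne_zero Complex.I_ne_zero (by exact_mod_cast c0)
    rw [tendsto_zero_iff_norm_tendsto_zero]
    have h1 : Tendsto (fun T : ℝ => T⁻¹ * (2 / |c|)) atTop (𝓝 0) := by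
      have := tendsto_inv_atTop_zero.mul_const (b := (2 / |c| : ℝ)) (f := (fun T : ℝ => T⁻¹))
      simpa using this
    refine squeeze_zero' (Eventually.of_forall fun T => norm_nonneg _) ?_ h1
    filter_upwards [eventually_gt_atTop 0] with T hT
    unfold avg
    rw [norm_mul, norm_inv, Complex.norm_real, Real.norm_of_nonneg hT.le]
    refine mul_le_mul_of_nonneg_left ?_ (by positivity)
    have h2 : ∫ t in T..(2 * T), mFourier n (pt w t) =
        ∫ t in T..(2 * T), Complex.exp ((Complex.I * (c : ℂ)) * t) := by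
      refine intervalIntegral.integral_congr fun t _ => ?_
      exact mF_pt w n t
    rw [h2, integral_exp_mul_complex cc, norm_div, norm_mul, Complex.norm_I, one_mul,
      Complex.norm_real, Real.norm_eq_abs]
    have e : ∀ x : ℝ, ‖Complex.exp (Complex.I * (c : ℂ) * (x : ℂ))‖ = 1 := by
      intro x
      rw [show Complex.I * (c : ℂ) * (x : ℂ) = ((c * x : ℝ) : ℂ) * Complex.I by push_cast; ring]
      exact Complex.norm_exp_ofReal_mul_I _
    refine div_le_div_of_nonneg_right ?_ (abs_nonneg _)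
    refine (norm_sub_le _ _).trans ?_
    rw [e, e]
    norm_num

omit [Fintype d] in
theorem avg_int (w : d → ℝ) (T : ℝ) (F : C(UnitAddTorus d, ℂ)) :
    IntervalIntegrable (fun t => F (pt w t)) volume T (2 * T) :=
  (F.continuous.comp (pt_cont w)).intervalIntegrable _ _

omit [Fintype d] in
theorem avg_sub_le (w : d → ℝ) {T : ℝ} (hT : 0 < T) (F G : C(UnitAddTorus d, ℂ)) :
    ‖avg w T F - avg w T G‖ ≤ ‖F - G‖ := by
  unfold avg
  rw [← mul_sub, ← intervalIntegral.integral_sub (avg_int w T F) (avg_int w T G), norm_mul, norm_inv,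
    Complex.norm_real, Real.norm_of_nonneg hT.le]
  have h1 : ‖∫ t in T..(2 * T), (F (pt w t) - G (pt w t))‖ ≤ ‖F - G‖ * |2 * T - T| :=
    intervalIntegral.norm_integral_le_of_norm_le_const fun t _ => (F - G).norm_coe_le_norm (pt w t)
  rw [show 2 * T - T = T by ring, abs_of_pos hT] at h1
  calc T⁻¹ * ‖∫ t in T..(2 * T), (F (pt w t) - G (pt w t))‖ ≤ T⁻¹ * (‖F - G‖ * T) :=
        mul_le_mul_of_nonneg_left h1 (by positivity)
    _ = ‖F - G‖ := by field_simp

theorem int_sub_le (F G : C(UnitAddTorus d, ℂ)) :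
    ‖∫ x, F x ∂(mu d) - ∫ x, G x ∂(mu d)‖ ≤ ‖F - G‖ := by
  have hi : ∀ F : C(UnitAddTorus d, ℂ), Integrable (fun x => F x) (mu d) := fun F =>
    F.continuous.integrable_of_hasCompactSupport (HasCompactSupport.of_compactSpace _)
  rw [← integral_sub (hi F) (hi G)]
  have h1 := norm_integral_le_of_norm_le_const (μ := mu d) (f := fun x => F x - G x)
    (C := ‖F - G‖) (Eventually.of_forall fun x => (F - G).norm_coe_le_norm x)
  simpa using h1

theorem kw_complex (w : d → ℝ) (hw : ∀ n : d → ℤ, n ≠ 0 → ∑ i, n i * w i ≠ 0)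
    (F : C(UnitAddTorus d, ℂ)) :
    Tendsto (fun T : ℝ => avg w T F) atTop (𝓝 (∫ x, F x ∂(mu d))) := by
  have hi : ∀ F : C(UnitAddTorus d, ℂ), Integrable (fun x => F x) (mu d) := fun F =>
    F.continuous.integrable_of_hasCompactSupport (HasCompactSupport.of_compactSpace _)
  have hspan : ∀ G ∈ Submodule.span ℂ (Set.range (mFourier (d := d))),
      Tendsto (fun T : ℝ => avg w T G) atTop (𝓝 (∫ x, G x ∂(mu d))) := by
    intro G hG
    induction hG using Submodule.span_induction with
    | mem x hx =>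
      obtain ⟨n, rfl⟩ := hx
      exact avg_mF w hw n
    | zero => simp [avg]
    | add x y _ _ h1 h2 =>
      have e1 : (fun T : ℝ => avg w T (x + y)) = fun T => avg w T x + avg w T y := by
        funext T
        unfold avg
        rw [← mul_add, ← intervalIntegral.integral_add (avg_int w T x) (avg_int w T y)]
        rfl
      have e2 : ∫ z, (x + y) z ∂(mu d) = ∫ z, x z ∂(mu d) + ∫ z, y z ∂(mu d) := by
        rw [← integral_add (hi x) (hi y)]
        rfl
      rw [e1, e2]
      exact h1.add h2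
    | smul a x _ h1 =>
      have e1 : (fun T : ℝ => avg w T (a • x)) = fun T => a * avg w T x := by
        funext T
        unfold avg
        have h3 : ∫ t in T..(2 * T), (a • x) (pt w t) = a * ∫ t in T..(2 * T), x (pt w t) :=
          intervalIntegral.integral_const_mul a (fun t => x (pt w t))
        rw [h3]
        ring
      have e2 : ∫ z, (a • x) z ∂(mu d) = a * ∫ z, x z ∂(mu d) := by
        rw [← integral_const_mul]
        rfl
      rw [e1, e2]
      exact h1.const_mul a
  rw [Metric.tendsto_atTop]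
  intro ε hε
  have hF : F ∈ (Submodule.span ℂ (Set.range (mFourier (d := d)))).topologicalClosure := by
    rw [span_mFourier_closure_eq_top]
    trivial
  obtain ⟨G, hG, hGF⟩ := Metric.mem_closure_iff.1 hF (ε / 3) (by positivity)
  obtain ⟨T1, hT1⟩ := (Metric.tendsto_atTop.1 (hspan G hG)) (ε / 3) (by positivity)
  refine ⟨max T1 1, fun T hT => ?_⟩
  have hT0 : 0 < T := lt_of_lt_of_le one_pos ((le_max_right _ _).trans hT)
  have h1 := hT1 T ((le_max_left _ _).trans hT)
  have h2 := avg_sub_le w hT0 F G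
  have h3 := int_sub_le (d := d) G F
  rw [dist_eq_norm] at hGF h1 ⊢
  rw [norm_sub_rev] at h3
  have h4 : avg w T F - ∫ x, F x ∂(mu d) = (avg w T F - avg w T G) +
      (avg w T G - ∫ x, G x ∂(mu d)) + (∫ x, G x ∂(mu d) - ∫ x, F x ∂(mu d)) := by ring
  rw [h4]
  refine lt_of_le_of_lt (norm_add₃_le) ?_
  have h5 : ‖∫ x, G x ∂(mu d) - ∫ x, F x ∂(mu d)‖ ≤ ‖F - G‖ := by
    rw [norm_sub_rev]
    exact int_sub_le F G
  linarith

/-- the time average of a real function -/
noncomputable def avgR (w : d → ℝ) (T : ℝ) (F : C(UnitAddTorus d, ℝ)) : ℝ :=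
  T⁻¹ * ∫ t in T..(2 * T), F (pt w t)

/-- **Kronecker - Weyl** -/
theorem kw (w : d → ℝ) (hw : ∀ n : d → ℤ, n ≠ 0 → ∑ i, n i * w i ≠ 0)
    (F : C(UnitAddTorus d, ℝ)) :
    Tendsto (fun T : ℝ => avgR w T F) atTop (𝓝 (∫ x, F x ∂(mu d))) := by
  let G : C(UnitAddTorus d, ℂ) := ⟨fun x => ((F x : ℝ) : ℂ), by fun_prop⟩
  have h1 := kw_complex w hw G
  have e1 : (fun T : ℝ => avg w T G) = fun T : ℝ => ((avgR w T F : ℝ) : ℂ) := by
    funext T
    unfold avg avgR
    simp only [G, ContinuousMap.coe_mk]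
    rw [intervalIntegral.integral_ofReal]
    push_cast
    rfl
  have e2 : ∫ x, G x ∂(mu d) = ((∫ x, F x ∂(mu d) : ℝ) : ℂ) := by
    simp only [G, ContinuousMap.coe_mk]
    exact integral_ofReal
  rw [e1, e2] at h1
  have h2 := (Complex.continuous_re.tendsto _).comp h1
  simpa [Function.comp_def] using h2

omit [Fintype d] in
theorem avgR_sub_le (w : d → ℝ) {T : ℝ} (hT : 0 < T) (F G : C(UnitAddTorus d, ℝ)) :
    |avgR w T F - avgR w T G| ≤ ‖F - G‖ := by
  unfold avgR
  have hi : ∀ F : C(UnitAddTorus d, ℝ), IntervalIntegrable (fun t => F (pt w t)) volume T (2 * T) :=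
    fun F => (F.continuous.comp (pt_cont w)).intervalIntegrable _ _
  rw [← mul_sub, ← intervalIntegral.integral_sub (hi F) (hi G), abs_mul, abs_of_pos (inv_pos.2 hT)]
  have h1 : ‖∫ t in T..(2 * T), (F (pt w t) - G (pt w t))‖ ≤ ‖F - G‖ * |2 * T - T| :=
    intervalIntegral.norm_integral_le_of_norm_le_const fun t _ => (F - G).norm_coe_le_norm (pt w t)
  rw [show 2 * T - T = T by ring, abs_of_pos hT, Real.norm_eq_abs] at h1
  calc T⁻¹ * |∫ t in T..(2 * T), (F (pt w t) - G (pt w t))| ≤ T⁻¹ * (‖F - G‖ * T) :=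
        mul_le_mul_of_nonneg_left h1 (by positivity)
    _ = ‖F - G‖ := by field_simp

theorem intR_sub_le (F G : C(UnitAddTorus d, ℝ)) :
    |∫ x, F x ∂(mu d) - ∫ x, G x ∂(mu d)| ≤ ‖F - G‖ := by
  have hi : ∀ F : C(UnitAddTorus d, ℝ), Integrable (fun x => F x) (mu d) := fun F =>
    F.continuous.integrable_of_hasCompactSupport (HasCompactSupport.of_compactSpace _)
  rw [← integral_sub (hi F) (hi G)]
  have h1 := norm_integral_le_of_norm_le_const (μ := mu d) (f := fun x => F x - G x)
    (C := ‖F - G‖) (Eventually.of_forall fun x => (F - G).norm_coe_le_norm x)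
  simpa using h1

/-- uniform on compact families -/
theorem kw_unif (w : d → ℝ) (hw : ∀ n : d → ℤ, n ≠ 0 → ∑ i, n i * w i ≠ 0)
    (K : Set C(UnitAddTorus d, ℝ)) (hK : IsCompact K) {ε : ℝ} (hε : 0 < ε) :
    ∃ T0 : ℝ, 0 < T0 ∧ ∀ T, T0 ≤ T → ∀ F ∈ K, |avgR w T F - ∫ x, F x ∂(mu d)| ≤ ε := by
  obtain ⟨S, hSf, hS⟩ := Metric.totallyBounded_iff.1 hK.totallyBounded (ε / 3) (by positivity)
  have h1 : ∀ᶠ T : ℝ in atTop, ∀ G ∈ S, |avgR w T G - ∫ x, G x ∂(mu d)| < ε / 3 := by
    rw [Filter.eventually_all_finite hSf]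
    intro G _
    have := (Metric.tendsto_nhds.1 (kw w hw G)) (ε / 3) (by positivity)
    simpa [Real.dist_eq] using this
  obtain ⟨T1, hT1⟩ := eventually_atTop.1 h1
  refine ⟨max T1 1, by positivity, fun T hT F hF => ?_⟩
  have hT0 : 0 < T := lt_of_lt_of_le one_pos ((le_max_right _ _).trans hT)
  obtain ⟨G, hG, hFG⟩ := Set.mem_iUnion₂.1 (hS hF)
  have h2 := hT1 T ((le_max_left _ _).trans hT) G hG
  have h3 := avgR_sub_le w hT0 F G
  have h4 := intR_sub_le (d := d) F G
  rw [Metric.mem_ball, dist_eq_norm] at hFG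
  rw [abs_le] at h3 h4 ⊢
  rw [abs_lt] at h2
  constructor <;> linarith [h3.1, h3.2, h4.1, h4.2, h2.1, h2.2]

theorem real_le_int {α : Type} [MeasurableSpace α] (ν : Measure α) [IsFiniteMeasure ν] {S : Set α}
    (hS : MeasurableSet S) {φ : α → ℝ} (hi : Integrable φ ν) (h0 : ∀ x, 0 ≤ φ x)
    (h1 : ∀ x ∈ S, 1 ≤ φ x) : ν.real S ≤ ∫ x, φ x ∂ν := by
  rw [← integral_indicator_one hS]
  refine integral_mono ((integrable_const 1).indicator hS) hi fun x => ?_
  by_cases hx : x ∈ S
  · simpa [Set.indicator_of_mem hx] using h1 x hx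
  · simpa [Set.indicator_of_notMem hx] using h0 x

theorem int_le_real {α : Type} [MeasurableSpace α] (ν : Measure α) [IsFiniteMeasure ν] {S : Set α}
    (hS : MeasurableSet S) {φ : α → ℝ} (hi : Integrable φ ν) (h1 : ∀ x, φ x ≤ 1)
    (h0 : ∀ x, x ∉ S → φ x ≤ 0) : ∫ x, φ x ∂ν ≤ ν.real S := by
  rw [← integral_indicator_one hS]
  refine integral_mono hi ((integrable_const 1).indicator hS) fun x => ?_
  by_cases hx : x ∈ S
  · simpa [Set.indicator_of_mem hx] using h1 x
  · simpa [Set.indicator_of_notMem hx] using h0 x hx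

/-- the ramp -/
noncomputable def ramp (u : ℝ) : ℝ := max 0 (min 1 u)

theorem ramp_nonneg (u : ℝ) : 0 ≤ ramp u := le_max_left _ _
theorem ramp_le (u : ℝ) : ramp u ≤ 1 := max_le zero_le_one (min_le_left _ _)
theorem ramp_one {u : ℝ} (h : 1 ≤ u) : 1 ≤ ramp u := by
  unfold ramp
  rw [min_eq_left h]
  exact le_max_right _ _
theorem ramp_zero {u : ℝ} (h : u ≤ 0) : ramp u ≤ 0 := by
  unfold ramp
  exact max_le le_rfl ((min_le_right _ _).trans h)
theorem ramp_cont : Continuous ramp := by
  unfold ramp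
  fun_prop

/-- the proportion of the `t` of `[T, 2T]` in a set -/
noncomputable def prp (T : ℝ) (A : Set ℝ) : ℝ := T⁻¹ * volume.real (A ∩ Set.Icc T (2 * T))

theorem prp_eq (T : ℝ) {A : Set ℝ} (hA : MeasurableSet A) :
    prp T A = T⁻¹ * (volume.restrict (Set.Icc T (2 * T))).real A := by
  unfold prp
  rw [measureReal_restrict_apply hA]

theorem prp_univ {T : ℝ} (hT : 0 < T) : prp T Set.univ = 1 := by
  unfold prp
  rw [Set.univ_inter, Real.volume_real_Icc_of_le (by linarith)]
  field_simp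
  ring

omit [Fintype d] in
theorem avgR_eq (w : d → ℝ) {T : ℝ} (hT : 0 < T) (F : C(UnitAddTorus d, ℝ)) :
    avgR w T F = T⁻¹ * ∫ t, F (pt w t) ∂(volume.restrict (Set.Icc T (2 * T))) := by
  unfold avgR
  rw [intervalIntegral.integral_of_le (by linarith), integral_Icc_eq_integral_Ioc]

/-- **Kronecker - Weyl with levels, uniform in a compact parameter and in the level** -/
theorem kw_level {Y : Type} [TopologicalSpace Y] [CompactSpace Y] (w : d → ℝ)
    (hw : ∀ n : d → ℤ, n ≠ 0 → ∑ i, n i * w i ≠ 0) (G : C(Y × UnitAddTorus d, ℝ)) {η ε : ℝ}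
    (hη : 0 < η) (hε : 0 < ε) :
    ∃ T0 : ℝ, 0 < T0 ∧ ∀ T, T0 ≤ T → ∀ (y : Y) (a : ℝ),
      (mu d).real {x | a < G (y, x)} ≤ prp T {t | a - η < G (y, pt w t)} + ε ∧
      prp T {t | a < G (y, pt w t)} ≤ (mu d).real {x | a - η < G (y, x)} + ε := by
  set M : ℝ := ‖G‖ + 1 with hM
  have hG : ∀ z, |G z| ≤ ‖G‖ := fun z => G.norm_coe_le_norm z
  let Ψ : C((Y × Set.Icc (-M) M) × UnitAddTorus d, ℝ) :=
    ⟨fun z => ramp ((G (z.1.1, z.2) - z.1.2) / η + 1), by
      have := ramp_cont
      fun_prop⟩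
  have hK : IsCompact (Set.range (Ψ.curry)) := isCompact_range Ψ.curry.continuous
  obtain ⟨T0, hT0, hT⟩ := kw_unif w hw _ hK hε
  refine ⟨T0, hT0, fun T hTT y a => ?_⟩
  have T0' : 0 < T := lt_of_lt_of_le hT0 hTT
  have mS : ∀ b : ℝ, MeasurableSet {x : UnitAddTorus d | b < G (y, x)} := fun b =>
    (isOpen_lt continuous_const (by fun_prop)).measurableSet
  have mA : ∀ b : ℝ, MeasurableSet {t : ℝ | b < G (y, pt w t)} := fun b => by
    have := pt_cont w
    exact (isOpen_lt continuous_const (by fun_prop)).measurableSet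
  rcases lt_or_ge a (-M) with ha | ha
  · have e1 : ∀ b, b < -‖G‖ → {t : ℝ | b < G (y, pt w t)} = Set.univ := fun b hb => by
      ext t
      simp only [Set.mem_ofPred_eq, Set.mem_univ, iff_true]
      have := (abs_le.1 (hG (y, pt w t))).1
      linarith
    have e2 : ∀ b, b < -‖G‖ → {x : UnitAddTorus d | b < G (y, x)} = Set.univ := fun b hb => by
      ext t
      simp only [Set.mem_ofPred_eq, Set.mem_univ, iff_true]
      have := (abs_le.1 (hG (y, t))).1
      linarith
    rw [e1 _ (by linarith), e1 _ (by linarith), e2 _ (by linarith), e2 _ (by linarith),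
      prp_univ T0']
    simp only [probReal_univ]
    constructor <;> linarith
  rcases lt_or_ge M a with ha2 | ha2
  · have e1 : {t : ℝ | a < G (y, pt w t)} = ∅ := by
      ext t
      simp only [Set.mem_ofPred_eq, Set.mem_empty_iff_false, iff_false, not_lt]
      have := (abs_le.1 (hG (y, pt w t))).2
      linarith
    have e2 : {x : UnitAddTorus d | a < G (y, x)} = ∅ := by
      ext t
      simp only [Set.mem_ofPred_eq, Set.mem_empty_iff_false, iff_false, not_lt]
      have := (abs_le.1 (hG (y, t))).2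
      linarith
    have p0 : ∀ A, 0 ≤ prp T A := fun A => mul_nonneg (by positivity) measureReal_nonneg
    rw [e1, e2]
    have e3 : prp T ∅ = 0 := by simp [prp]
    rw [e3]
    simp only [measureReal_empty]
    constructor
    · have := p0 {t | a - η < G (y, pt w t)}
      linarith
    · have : 0 ≤ (mu d).real {x | a - η < G (y, x)} := measureReal_nonneg
      linarith
  · set F : C(UnitAddTorus d, ℝ) := Ψ.curry (y, ⟨a, ha, ha2⟩) with hF
    have Fx : ∀ x, F x = ramp ((G (y, x) - a) / η + 1) := fun x => rfl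
    have h1 := hT T hTT F ⟨_, rfl⟩
    rw [abs_le] at h1
    have F0 : ∀ x, 0 ≤ F x := fun x => by rw [Fx]; exact ramp_nonneg _
    have F1 : ∀ x, F x ≤ 1 := fun x => by rw [Fx]; exact ramp_le _
    have Fa : ∀ x, a < G (y, x) → 1 ≤ F x := fun x hx => by
      rw [Fx]
      apply ramp_one
      have : 0 ≤ (G (y, x) - a) / η := div_nonneg (by linarith) hη.le
      linarith
    have Fb : ∀ x, ¬ a - η < G (y, x) → F x ≤ 0 := fun x hx => by
      rw [Fx]
      apply ramp_zero
      have : (G (y, x) - a) / η ≤ -1 := by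
        rw [div_le_iff₀ hη]
        linarith [not_lt.1 hx]
      linarith
    have iF : Integrable (fun x => F x) (mu d) :=
      F.continuous.integrable_of_hasCompactSupport (HasCompactSupport.of_compactSpace _)
    have iT : Integrable (fun t => F (pt w t)) (volume.restrict (Set.Icc T (2 * T))) :=
      ((F.continuous.comp (pt_cont w)).continuousOn).integrableOn_compact isCompact_Icc
    have Ti : 0 ≤ T⁻¹ := by positivity
    constructor
    · have h2 := real_le_int (mu d) (mS a) iF F0 (fun x hx => Fa x hx)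
      have h3 := int_le_real (volume.restrict (Set.Icc T (2 * T))) (mA (a - η)) iT
        (fun t => F1 _) (fun t ht => Fb _ ht)
      have h4 : avgR w T F ≤ prp T {t | a - η < G (y, pt w t)} := by
        rw [avgR_eq w T0', prp_eq T (mA _)]
        exact mul_le_mul_of_nonneg_left h3 Ti
      linarith [h1.1, h1.2]
    · have h2 := int_le_real (mu d) (mS (a - η)) iF F1 (fun x hx => Fb x hx)
      have h3 := real_le_int (volume.restrict (Set.Icc T (2 * T))) (mA a) iT
        (fun t => F0 _) (fun t ht => Fa _ ht)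
      have h4 : prp T {t | a < G (y, pt w t)} ≤ avgR w T F := by
        rw [avgR_eq w T0', prp_eq T (mA _)]
        exact mul_le_mul_of_nonneg_left h3 Ti
      linarith [h1.1, h1.2]

/-! ## logarithms of primes -/

theorem pvr_prod (q : ℕ) [Fact q.Prime] (P : Finset ℕ) (hP : ∀ p ∈ P, p.Prime) (n : P → ℤ)
    (s : Finset P) : padicValRat q (∏ p ∈ s, ((p : ℕ) : ℚ) ^ (n p)) =
      ∑ p ∈ s, n p * padicValRat q ((p : ℕ) : ℚ) := by
  classical
  have p0 : ∀ p : P, (((p : ℕ) : ℚ)) ≠ 0 := fun p => by exact_mod_cast (hP p p.2).ne_zero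
  induction s using Finset.induction_on with
  | empty => simp
  | insert a s ha ih =>
    rw [Finset.prod_insert ha, Finset.sum_insert ha, padicValRat.mul, ih, padicValRat.zpow]
    · exact zpow_ne_zero _ (p0 a)
    · exact Finset.prod_ne_zero_iff.2 fun p _ => zpow_ne_zero _ (p0 p)

theorem log_indep (P : Finset ℕ) (hP : ∀ p ∈ P, p.Prime) (n : P → ℤ)
    (h : ∑ p : P, (n p : ℝ) * Real.log (p : ℕ) = 0) : n = 0 := by
  have pp : ∀ p : P, (0 : ℝ) < ((p : ℕ) : ℝ) := fun p => by exact_mod_cast (hP p p.2).pos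
  have h1 : ∏ p : P, (((p : ℕ) : ℝ)) ^ (n p) = 1 := by
    rw [← Real.exp_zero, ← h, Real.exp_sum]
    refine Finset.prod_congr rfl fun p _ => ?_
    rw [← Real.rpow_intCast, Real.rpow_def_of_pos (pp p), mul_comm]
  have h2' : ((∏ p : P, (((p : ℕ) : ℚ)) ^ (n p) : ℚ) : ℝ) = ((1 : ℚ) : ℝ) := by
    push_cast
    exact h1
  have h2 : ∏ p : P, (((p : ℕ) : ℚ)) ^ (n p) = 1 := by exact_mod_cast h2'
  funext q
  have : Fact (q : ℕ).Prime := ⟨hP q q.2⟩
  have h3 := congrArg (padicValRat (q : ℕ)) h2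
  rw [pvr_prod _ P hP n, padicValRat.one] at h3
  rw [Finset.sum_eq_single q] at h3
  · rw [padicValRat.of_nat, padicValNat.self (hP q q.2).one_lt] at h3
    simpa using h3
  · intro p _ hpq
    have hne : (q : ℕ) ≠ (p : ℕ) := fun h => hpq (Subtype.ext h.symm)
    have hnd : ¬ (q : ℕ) ∣ (p : ℕ) := fun h => hne ((Nat.prime_dvd_prime_iff_eq (hP q q.2)
      (hP p p.2)).1 h)
    rw [padicValRat.of_nat, padicValNat.eq_zero_of_not_dvd hnd]
    simp
  · intro h
    exact absurd (Finset.mem_univ q) h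

/-- the frequencies of `p ^ (- i t)` -/
noncomputable def wP (P : Finset ℕ) : P → ℝ := fun p => -Real.log (p : ℕ) / (2 * Real.pi)

theorem wP_indep (P : Finset ℕ) (hP : ∀ p ∈ P, p.Prime) (n : P → ℤ) (hn : n ≠ 0) :
    ∑ p, n p * wP P p ≠ 0 := by
  intro h
  apply hn
  apply log_indep P hP
  have h1 : ∑ p, n p * wP P p = (-1 / (2 * Real.pi)) * ∑ p : P, (n p : ℝ) * Real.log (p : ℕ) := by
    rw [Finset.mul_sum]
    refine Finset.sum_congr rfl fun p _ => ?_
    unfold wP
    ring
  rw [h1] at h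
  rcases mul_eq_zero.1 h with h | h
  · exact absurd h (by have := Real.pi_pos; positivity)
  · exact h

/-- the point of the torus is `(p ^ (- i t))` -/
theorem toCircle_pt (P : Finset ℕ) (p : P) (hp : (p : ℕ).Prime) (t : ℝ) :
    (AddCircle.toCircle (pt (wP P) t p) : ℂ) = ((p : ℕ) : ℂ) ^ (-(t : ℂ) * Complex.I) := by
  have h0 : ((p : ℕ) : ℂ) ≠ 0 := by exact_mod_cast hp.ne_zero
  unfold pt wP
  rw [AddCircle.toCircle_apply_mk, Circle.coe_exp, Complex.cpow_def_of_ne_zero h0]
  congr 1
  rw [← Complex.natCast_log]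
  push_cast
  have := Real.pi_pos.ne'
  have h2 : (Real.pi : ℂ) ≠ 0 := by exact_mod_cast this
  field_simp

end Pool.Agent.Helper6.ZM
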